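import Pool.Agent.Helper31.NB.Vn

/-!
# Assembly: boxes `[1, M_1] × ⋯ × [1, M_k]`
-/

set_option autoImplicit false
set_option linter.unusedSectionVars false

open Filter Topology MeasureTheory
open scoped ComplexConjugate ENNReal

namespace Pool.Agent.Helper31.NB

open Pool.Agent.TH784.AA
open Pool.Agent.TH635.AA (RiemInt)
open Pool.Agent.W761.Box (bxc bx Cv Good1)
open Pool.Agent.TH635.NP (top_gen good_ord isAff_closure)

noncomputable section

/-- change of the box -/
theorem box_shift {α : Type*} [AddCommMonoid α] {k : ℕ} (M : Fin k → ℕ) (a : (Fin k → ℕ) → α) :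
    ∑ m ∈ Fintype.piFinset (fun j => Finset.range (M j)), a (m + 1) =
      ∑ m ∈ Fintype.piFinset (fun j => Finset.Icc 1 (M j)), a m := by
  refine Finset.sum_bij (fun m _ => m + 1) ?_ ?_ ?_ ?_
  · intro m hm
    rw [Fintype.mem_piFinset] at hm ⊢
    intro j
    have h := hm j
    rw [Finset.mem_range] at h
    rw [Finset.mem_Icc, Pi.add_apply, Pi.one_apply]
    omega
  · intro m _ m' _ h
    exact add_right_cancel h
  · intro m hm
    rw [Fintype.mem_piFinset] at hm
    refine ⟨m - 1, ?_, ?_⟩
    · rw [Fintype.mem_piFinset]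
      intro j
      have h := hm j
      rw [Finset.mem_Icc] at h
      rw [Finset.mem_range, Pi.sub_apply, Pi.one_apply]
      omega
    · funext j
      have h := hm j
      rw [Finset.mem_Icc] at h
      rw [Pi.add_apply, Pi.sub_apply, Pi.one_apply]
      omega
  · intro m _
    rfl

section ord

variable {X : Type*} [MeasurableSpace X] {μ : Measure X}

theorem mp_inv {U : Equiv.Perm X} (h : MeasurePreserving (U : X → X) μ μ)
    (h' : Measurable (U.symm : X → X)) : MeasurePreserving ((U⁻¹ : Equiv.Perm X) : X → X) μ μ :=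
  MeasurePreserving.symm (⟨U, h.measurable, h'⟩ : X ≃ᵐ X) h

/-- ordered products of powers, shifted -/
theorem ord_shift : ∀ (k : ℕ) (U : Fin k → Equiv.Perm X),
    (∀ l, MeasurePreserving (U l : X → X) μ μ ∧ Measurable ((U l).symm : X → X)) →
    ∃ (V : Fin k → Equiv.Perm X) (W : Equiv.Perm X), (∀ l, MeasurePreserving (V l : X → X) μ μ) ∧
      MeasurePreserving (W : X → X) μ μ ∧ ∀ m : Fin k → ℕ,
        (List.ofFn fun l => U l ^ (m l + 1)).prod = (List.ofFn fun l => V l ^ m l).prod * W := by
  intro k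
  induction k with
  | zero =>
    intro U _
    exact ⟨fun l => 1, 1, fun l => MeasurePreserving.id μ, MeasurePreserving.id μ, fun m => by
      rw [List.ofFn_zero, List.ofFn_zero, List.prod_nil, one_mul]⟩
  | succ k ih =>
    intro U hU
    obtain ⟨V, W, hV, hW, h⟩ := ih (fun l => U l.succ) fun l => hU l.succ
    have h0 := (hU 0).1
    have h0' := mp_inv h0 (hU 0).2
    refine ⟨Fin.cons (U 0) fun l => U 0 * V l * (U 0)⁻¹, U 0 * W, ?_, h0.comp hW, ?_⟩
    · intro l
      refine Fin.cases ?_ (fun l => ?_) l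
      · rw [Fin.cons_zero]
        exact h0
      · rw [Fin.cons_succ]
        exact h0.comp ((hV l).comp h0')
    · intro m
      rw [List.ofFn_succ, List.prod_cons, h fun l => m l.succ, List.ofFn_succ, List.prod_cons,
        Fin.cons_zero]
      simp only [Fin.cons_succ, conj_pow]
      have key : ∀ (k : ℕ) (Y : Fin k → Equiv.Perm X),
          (List.ofFn fun l => U 0 * Y l * (U 0)⁻¹).prod = U 0 * (List.ofFn Y).prod * (U 0)⁻¹ := by
        intro k
        induction k with
        | zero =>
          intro Y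
          rw [List.ofFn_zero, List.ofFn_zero, List.prod_nil, mul_one, mul_inv_cancel]
        | succ k ih =>
          intro Y
          rw [List.ofFn_succ, List.prod_cons, ih, List.ofFn_succ, List.prod_cons]
          group
      rw [key, pow_succ]
      group

end ord

section main

variable {X : Type} [CommGroup X] [TopologicalSpace X] [IsTopologicalGroup X] [CompactSpace X]
  [T2Space X] [MeasurableSpace X] [BorelSpace X] {μ : Measure X} [μ.IsHaarMeasure]
  [IsProbabilityMeasure μ] {d k n : ℕ}

/-- **Convergence.** -/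
theorem box_top {T : Fin d → Equiv.Perm X} (hT : ∀ i, IsAff (T i : X → X))
    (hnil : ∃ Λ : Subgroup (Subgroup.closure (Set.range T)), Λ.FiniteIndex ∧ Group.IsNilpotent Λ)
    {P : Fin d → Fin n → (Fin k → ℤ) → ℤ} (hP : ∀ i j, IsPM (P i j))
    {f : Fin n → X → ℂ} (hf : ∀ j, MemLp (f j) ∞ μ)
    (hF : ∀ j, RiemInt μ (f j) ∨
      (TopologicalSpace.MetrizableSpace X ∧ ∀ᵐ x ∂μ, ContinuousAt (f j) x) ∨
      (∃ (U : Fin k → Equiv.Perm X) (W : Equiv.Perm X),
        (∀ l, MeasurePreserving (U l) μ μ ∧ Measurable (U l).symm) ∧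
        MeasurePreserving W μ μ ∧ ∀ m : Fin k → ℕ, (List.ofFn fun i : Fin d =>
          T i ^ P i j (fun l => (m l : ℤ))).prod = (List.ofFn fun l => U l ^ m l).prod * W) ∨
      (∀ G : X → ℝ, Measurable G → (∃ C : ℝ, ∀ x, |G x| ≤ C) →
        ∀ᵐ x ∂μ, ∃ L : ℝ, Tendsto (fun M : Fin k → ℕ => (∏ j, (M j : ℝ))⁻¹ *
          ∑ m ∈ Fintype.piFinset (fun j => Finset.Icc 1 (M j)),
            G ((List.ofFn fun i : Fin d => T i ^ P i j (fun l => (m l : ℤ))).prod x))
          atTop (𝓝 L))) :
    ∀ᵐ x ∂μ, ∃ L : ℂ, Tendsto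
      (fun M : Fin k → ℕ => (∏ j, (M j : ℂ))⁻¹ *
        ∑ m ∈ Fintype.piFinset (fun j => Finset.Icc 1 (M j)),
          ∏ j : Fin n, f j ((List.ofFn fun i : Fin d =>
            T i ^ P i j (fun l => (m l : ℤ))).prod x))
      atTop (𝓝 L) := by
  have hnz : ∀ m : Fin k → ℕ, (fun l => (((m + 1) l : ℕ) : ℤ)) = nz m + 1 := by
    intro m
    funext l
    simp [nz]
  have hmp : ∀ (j : Fin n) (m : Fin k → ℕ), MeasurePreserving (fun x : X =>
      (List.ofFn fun i : Fin d => T i ^ P i j (nz m + 1)).prod x) μ μ := by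
    intro j m
    have h1 : IsAff (((List.ofFn fun i : Fin d => T i ^ P i j (nz m + 1)).prod :
        Equiv.Perm X) : X → X) := by
      apply isAff_closure hT
      apply Subgroup.list_prod_mem
      intro x hx
      obtain ⟨i, rfl⟩ := (List.mem_ofFn' _ _).mp hx
      exact Subgroup.zpow_mem (Subgroup.closure (Set.range T))
        (Subgroup.subset_closure (Set.mem_range_self i)) _
    exact h1.mp
  have hmain : Cv μ (fun j (m : Fin k → ℕ) x => (List.ofFn fun i : Fin d =>
      T i ^ P i j (nz m + 1)).prod x) f := by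
    refine top_gen hmp (fun χ => conv_vn hT hnil (fun i j => (hP i j).shift) χ) hf fun j => ?_
    rcases hF j with h | h | ⟨U, W, hU, hW, h⟩ | h
    · exact Or.inl h
    · exact Or.inr (Or.inl h)
    · right
      right
      obtain ⟨V, W', hV, hW', h'⟩ := ord_shift k U hU
      have hWW : MeasurePreserving ((W' * W : Equiv.Perm X) : X → X) μ μ := hW'.comp hW
      have h1 := good_ord hV hWW
      have e : (fun (m : Fin k → ℕ) => ((List.ofFn fun i : Fin d =>
          T i ^ P i j (nz m + 1)).prod : X → X)) = fun m => (((List.ofFn fun l => V l ^ m l).prod *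
          (W' * W) : Equiv.Perm X) : X → X) := by
        funext m
        congr 1
        rw [← mul_assoc, ← h', ← hnz]
        exact h (m + 1)
      rw [e]
      exact h1
    · right
      right
      rintro G hG hC
      filter_upwards [h G hG hC] with x hx
      obtain ⟨L, hL⟩ := hx
      refine ⟨L, hL.congr fun M => ?_⟩
      unfold bx
      congr 1
      rw [← box_shift]
      refine Finset.sum_congr rfl fun m _ => ?_
      rw [hnz]
  filter_upwards [hmain] with x hx
  obtain ⟨L, hL⟩ := hx
  refine ⟨L, hL.congr fun M => ?_⟩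
  unfold bxc
  congr 1
  rw [← box_shift]
  refine Finset.sum_congr rfl fun m _ => ?_
  rw [hnz]

end main

end

end Pool.Agent.Helper31.NB
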