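import Pool.Agent.Helper31.NB.Ph
import Pool.Graph.R_pool_sql_team_seeded_9f66d723.W5h43.NA.Fin
import Pool.Graph.R_pool_sql_team_seeded_ab47071d.TH635.NP.Fnl

/-!
# Several variables: sums over polynomial sequences in a nilpotent group acting on any module
-/

set_option autoImplicit false
set_option linter.unusedSectionVars false

namespace Pool.Agent.Helper31.NB

open Pool.Agent.TH784.AA (cnt vol bxs FewB nz mix)
open Pool.Agent.TH635.AA (Pol Sep sep_isPoly)
open Pool.Agent.W742.CU (IsPoly)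
open Pool.Agent.TH635.NP (SG SG_freeze Slb dich)
open Pool.Agent.Helper294.HallC (FGM Stb)
open Pool.Agent.W5h43.NA (PS psi psi_cons psi_dilL dilL AZ ZB dich_all subAct const_mem)

noncomputable section

variable {G M : Type} [Group G] [AddCommGroup M] [DistribMulAction G M] {ι : Type} {T : ι → G}
  {n k : ℕ}

theorem SG_mixr {𝒬 : Subgroup (ℤ → G)} (hc : ∀ c : G, (fun _ => c) ∈ 𝒬)
    {g : (Fin k → ℤ) → G} (h : SG 𝒬 g) (E : Finset (Fin k)) (r : Fin k → ℤ) :
    SG 𝒬 (fun m => g (mix E m r)) := by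
  intro m l
  by_cases hl : l ∈ E
  · have e : (fun t => g (mix E (Function.update m l t) r)) =
        fun t => g (Function.update (mix E m r) l t) := by
      funext t
      congr 1
      funext j
      unfold mix
      by_cases hj : j = l
      · subst hj
        rw [if_pos hl, Function.update_self, Function.update_self]
      · rw [Function.update_of_ne hj, Function.update_of_ne hj]
    rw [e]
    exact h _ _
  · have e : (fun t => g (mix E (Function.update m l t) r)) = fun _ => g (mix E m r) := by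
      funext t
      congr 1
      funext j
      unfold mix
      by_cases hj : j ∈ E
      · have : j ≠ l := fun h => hl (h ▸ hj)
        rw [if_pos hj, if_pos hj, Function.update_of_ne this]
      · rw [if_neg hj, if_neg hj]
    rw [e]
    exact hc _

/-- the point -/
def pt (q : ℕ) (r m : Fin k → ℤ) : Fin k → ℤ := fun l => r l + q * m l

theorem pt_update (q : ℕ) (r m : Fin k → ℤ) (l : Fin k) (t : ℤ) :
    pt q r (Function.update m l t) = Function.update (pt q r m) l (r l + q * t) := by
  funext j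
  unfold pt
  by_cases hj : j = l
  · subst hj
    rw [Function.update_self, Function.update_self]
  · rw [Function.update_of_ne hj, Function.update_of_ne hj]

theorem pt_mix (q : ℕ) (r m : Fin k → ℤ) (E : Finset (Fin k)) :
    pt q r (mix E m 0) = mix E (pt q r m) r := by
  funext j
  unfold pt mix
  by_cases hj : j ∈ E
  · rw [if_pos hj, if_pos hj]
  · rw [if_neg hj, if_neg hj, Pi.zero_apply, mul_zero, add_zero]

/-- sums over polynomial sequences of several variables, on a residue class -/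
def CV (T : ι → G) (n q : ℕ) (r : Fin k → ℤ) (J : ℕ) (V : (Fin k → ℤ) → M) : Prop :=
  ∃ L : List (((Fin k → ℤ) → G) × M), L.length ≤ J ∧ (∀ x ∈ L, SG (PS T n) x.1) ∧
    ∀ m, V m = (L.map fun x => x.1 (pt q r m) • x.2).sum

theorem CV_mono {q : ℕ} {r : Fin k → ℤ} {J J' : ℕ} (hJ : J ≤ J') {V : (Fin k → ℤ) → M}
    (h : CV T n q r J V) : CV T n q r J' V := by
  obtain ⟨L, h1, h2⟩ := h
  exact ⟨L, h1.trans hJ, h2⟩

theorem CV_slice {q : ℕ} {r : Fin k → ℤ} {J : ℕ} {V : (Fin k → ℤ) → M}
    (h : CV T n q r J V) (m : Fin k → ℤ) (l : Fin k) :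
    ∃ L : List (PS T n × M), L.length ≤ J ∧
      ∀ t, V (Function.update m l t) = psi L (r l + q * t) := by
  classical
  obtain ⟨L, hJ, hL, hV⟩ := h
  have key : ∀ L : List (((Fin k → ℤ) → G) × M), (∀ x ∈ L, SG (PS T n) x.1) →
      ∃ L' : List (PS T n × M), L'.length = L.length ∧
        ∀ t, (L.map fun x => x.1 (pt q r (Function.update m l t)) • x.2).sum =
          psi L' (r l + q * t) := by
    intro L
    induction L with
    | nil => exact fun _ => ⟨[], rfl, fun t => rfl⟩
    | cons x L ih =>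
      intro hL
      obtain ⟨L', h1, h2⟩ := ih fun y hy => hL y (List.mem_cons_of_mem _ hy)
      refine ⟨(⟨_, hL x List.mem_cons_self (pt q r m) l⟩, x.2) :: L', ?_, fun t => ?_⟩
      · rw [List.length_cons, List.length_cons, h1]
      · rw [List.map_cons, List.sum_cons, psi_cons, h2, pt_update]
  obtain ⟨L', h1, h2⟩ := key L hL
  exact ⟨L', h1.le.trans hJ, fun t => (hV _).trans (h2 t)⟩

theorem CV_sub {q : ℕ} {r : Fin k → ℤ} {J J' : ℕ} {V V' : (Fin k → ℤ) → M}
    (h : CV T n q r J V) (h' : CV T n q r J' V') :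
    CV T n q r (J + J') (fun m => V m - V' m) := by
  obtain ⟨L, hJ, hL, hV⟩ := h
  obtain ⟨L', hJ', hL', hV'⟩ := h'
  refine ⟨L ++ L'.map fun x => (x.1, -x.2), ?_, ?_, ?_⟩
  · rw [List.length_append, List.length_map]
    omega
  · intro y hy
    rcases List.mem_append.mp hy with hy | hy
    · exact hL y hy
    · obtain ⟨x, hx, rfl⟩ := List.mem_map.mp hy
      exact hL' x hx
  · intro m
    show V m - V' m = _
    rw [List.map_append, List.sum_append, List.map_map, hV, hV', sub_eq_add_neg]
    congr 1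
    have key : ∀ L' : List (((Fin k → ℤ) → G) × M),
        -(L'.map fun x => x.1 (pt q r m) • x.2).sum =
        (L'.map ((fun x : ((Fin k → ℤ) → G) × M => x.1 (pt q r m) • x.2) ∘
          fun x : ((Fin k → ℤ) → G) × M => (x.1, -x.2))).sum := by
      intro L'
      induction L' with
      | nil => simp
      | cons x L' ih =>
        rw [List.map_cons, List.sum_cons, List.map_cons, List.sum_cons, ← ih, neg_add]
        congr 1
        exact (smul_neg _ _).symm
    exact key L'

theorem CV_freeze (hc : ∀ c : G, (fun _ => c) ∈ PS T n) {q : ℕ} {r : Fin k → ℤ} {J : ℕ}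
    {V : (Fin k → ℤ) → M} (h : CV T n q r J V) (l : Fin k) (s : ℤ) :
    CV T n q r J (fun m => V (Function.update m l s)) := by
  obtain ⟨L, hJ, hL, hV⟩ := h
  refine ⟨L.map fun x => (fun m => x.1 (Function.update m l (r l + q * s)), x.2),
    by rwa [List.length_map], ?_, ?_⟩
  · intro y hy
    obtain ⟨x, hx, rfl⟩ := List.mem_map.mp hy
    exact SG_freeze hc (hL x hx) l _
  · intro m
    show V (Function.update m l s) = _
    rw [hV, List.map_map, pt_update]
    rfl

theorem CV_mix (hc : ∀ c : G, (fun _ => c) ∈ PS T n) {q : ℕ} {r : Fin k → ℤ} {J : ℕ}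
    {V : (Fin k → ℤ) → M} (h : CV T n q r J V) (E : Finset (Fin k)) :
    CV T n q r J (fun m => V (mix E m 0)) := by
  obtain ⟨L, hJ, hL, hV⟩ := h
  refine ⟨L.map fun x => (fun m => x.1 (mix E m r), x.2), by rwa [List.length_map], ?_, ?_⟩
  · intro y hy
    obtain ⟨x, hx, rfl⟩ := List.mem_map.mp hy
    exact SG_mixr hc (hL x hx) E r
  · intro m
    show V (mix E m 0) = _
    rw [hV, List.map_map, pt_mix]
    rfl

/-- uniform bounds for slices -/
theorem CV_slb {q J : ℕ} {C δ : ℝ} (hC : 0 < C) (hδ : 0 < δ) (hδ1 : δ ≤ 1)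
    (h : ∀ L : List (PS T n × M), L.length ≤ J + 1 → AZ (psi L) q C δ) (r : Fin k → ℤ) :
    Slb (CV (M := M) (k := k) T n q r J) := by
  refine ⟨C, δ, hC, hδ, hδ1, fun V hV m l w => ?_⟩
  obtain ⟨L, hLJ, hLV⟩ := CV_slice hV m l
  have e : ∀ t : ℤ, psi ((1, -w) :: L) (r l + q * t) = V (Function.update m l t) - w := by
    intro t
    rw [psi_cons, hLV]
    show (1 : G) • (-w) + psi L _ = _
    rw [one_smul, neg_add_eq_sub]
  rcases h ((1, -w) :: L) (by rw [List.length_cons]; omega) (r l) with h1 | h1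
  · left
    intro t
    have h2 := h1 t
    rw [e] at h2
    exact sub_eq_zero.1 h2
  · right
    intro N hN Z hZ
    apply h1 N hN Z
    intro t ht
    refine ⟨(hZ t ht).1, ?_⟩
    show psi ((1, -w) :: L) (r l + q * (t : ℤ)) = 0
    rw [e, (hZ t ht).2, sub_self]

/-- **The dichotomy.** -/
theorem dich_CV [Finite ι] [Group.IsNilpotent G] (hn : 1 ≤ n)
    (hT : Subgroup.closure (Set.range T) = ⊤) (hM : FGM G M) (J : ℕ) :
    ∃ q : ℕ, 1 ≤ q ∧ ∀ (r : Fin k → ℤ) (V : (Fin k → ℤ) → M), CV T n q r J V → ∀ l : Fin k,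
      (∀ (m : Fin k → ℤ) (t : ℤ), V (Function.update m l t) = V m) ∨
        FewB l (fun n => V (nz n)) := by
  obtain ⟨q, hq, C, δ, hC, hδ, hδ1, h⟩ := dich_all (T := T) (M := M) hn hT hM (J + J + 1)
  have hc : ∀ c : G, (fun _ => c) ∈ PS T n := fun c => const_mem hn hT c
  refine ⟨q, hq, fun r V hV l => ?_⟩
  exact dich (CV_slb hC hδ hδ1 h r) (CV_mono (Nat.le_add_left J J) hV) l
    fun s s' => CV_sub (CV_freeze hc hV l s) (CV_freeze hc hV l s')

/-- **Values in a fixed subgroup.** -/
theorem fix_CV [Group.IsNilpotent G] {K : AddSubgroup M}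
    (hK : ∀ (g : G), ∀ x ∈ K, g • x = x) {q : ℕ} {r : Fin k → ℤ} {J : ℕ} {V : (Fin k → ℤ) → M}
    (hV : CV T n q r J V) (hVK : ∀ m, V m ∈ K) : ∃ d, IsPoly d V := by
  obtain ⟨d, hd⟩ := phase_all (T := T) (n := n) hK J
  refine ⟨k * d, sep_isPoly fun m l => ?_⟩
  obtain ⟨L, hJ, hLV⟩ := CV_slice hV m l
  have e : (fun t => V (Function.update m l t)) = psi (dilL (r l) q L) := by
    funext t
    rw [hLV, psi_dilL]
  rw [e]
  apply hd
  · unfold dilL
    rwa [List.length_map]
  · intro t
    rw [psi_dilL, ← hLV]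
    exact hVK _

end

end Pool.Agent.Helper31.NB
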