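import Pool.Graph.R_pool_sql_team_seeded_9f66d723.W5h43.NA.Pet

/-!
# Phases of the functions `∑ b(t) u`: uniform degree bounds
-/

set_option autoImplicit false
set_option linter.unusedSectionVars false

namespace Pool.Agent.Helper31.NB

open Pool.Agent.TH635.AA (Pol Pol_const Pol_zero_fun dd_succ Pol_mono)
open Pool.Agent.Helper294.HallC (FGM)
open Pool.Agent.W5h43.NA

noncomputable section

variable {G M : Type} [Group G] [AddCommGroup M] [DistribMulAction G M] {ι : Type} {T : ι → G}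
  {n : ℕ} {𝓕 : Flt T n}

/-- **Phases are polynomials, of bounded degree.** -/
theorem phase_wt {K : AddSubgroup M} (hK : ∀ (g : G), ∀ x ∈ K, g • x = x) (w : Fin 𝓕.s → ℕ) :
    ∀ J : ℕ, ∃ k : ℕ, ∀ L : List (PS T n × M), L.length ≤ J → wt 𝓕 (sq L) = w →
      (∀ t, psi L t ∈ K) → Pol k (psi L) := by
  classical
  induction w using (lx_wf 𝓕.s).induction with
  | h w ih =>
    intro J
    have h1 : ∀ w' : Fin 𝓕.s → ℕ, ∃ k : ℕ, lx w' w → ∀ L : List (PS T n × M),
        L.length ≤ 2 * J → wt 𝓕 (sq L) = w' → (∀ t, psi L t ∈ K) → Pol k (psi L) := by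
      intro w'
      by_cases hw' : lx w' w
      · obtain ⟨k, hk⟩ := ih w' hw' (2 * J)
        exact ⟨k, fun _ => hk⟩
      · exact ⟨0, fun h => absurd h hw'⟩
    choose κ hκ using h1
    let I : Finset (Fin 𝓕.s → ℕ) := Fintype.piFinset fun _ : Fin 𝓕.s => Finset.range (2 * J + 1)
    refine ⟨I.sup κ + 1, ?_⟩
    intro L hLJ hw hLK
    have hlen : (difL 𝓕 1 L).length ≤ 2 * J :=
      (length_difL 𝓕 _ L).trans (Nat.mul_le_mul_left 2 hLJ)
    have hw1 : wt 𝓕 (sq (difL 𝓕 1 L)) = w := by rw [wt_difL, hw]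
    have hK1 : ∀ t, psi (difL 𝓕 1 L) t ∈ K := by
      intro t
      rw [psi_difL]
      exact K.sub_mem (hLK _) (hLK _)
    have h1 : Pol (I.sup κ) (psi (difL 𝓕 1 L)) := by
      by_cases hne : difL 𝓕 1 L = []
      · rw [hne]
        exact Pol_zero_fun _
      · obtain ⟨b₁, hb₁⟩ := exists_trL hne fun b hb => difL_nc 𝓕 hb
        rw [hw1] at hb₁
        have e : psi (trL b₁ (difL 𝓕 1 L)) = psi (difL 𝓕 1 L) := by
          funext t
          rw [psi_trL, hK _ _ (hK1 t)]
        have hlen' : (trL b₁ (difL 𝓕 1 L)).length ≤ 2 * J := by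
          rw [trL, List.length_map]
          exact hlen
        have h2 := hκ _ hb₁ (trL b₁ (difL 𝓕 1 L)) hlen' rfl (by
          intro t
          rw [e]
          exact hK1 t)
        rw [e] at h2
        refine Pol_mono (Finset.le_sup ?_) h2
        rw [Fintype.mem_piFinset]
        intro i
        rw [Finset.mem_range, Nat.lt_succ_iff]
        exact ((tp_card 𝓕).trans (sq_card _)).trans hlen'
    intro t
    rw [dd_succ]
    have e : (fun t => psi L (t + 1) - psi L t) = psi (difL 𝓕 1 L) := by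
      funext t
      rw [psi_difL]
    rw [e]
    exact h1 t

/-- **Phases are polynomials, of bounded degree.** -/
theorem phase_all [Group.IsNilpotent G] {K : AddSubgroup M}
    (hK : ∀ (g : G), ∀ x ∈ K, g • x = x) (J : ℕ) :
    ∃ k : ℕ, ∀ L : List (PS T n × M), L.length ≤ J → (∀ t, psi L t ∈ K) → Pol k (psi L) := by
  classical
  obtain ⟨𝓕⟩ := exists_flt (T := T) (n := n)
  choose κ hκ using fun w : Fin 𝓕.s → ℕ => phase_wt (𝓕 := 𝓕) hK w J
  let I : Finset (Fin 𝓕.s → ℕ) := Fintype.piFinset fun _ : Fin 𝓕.s => Finset.range (J + 1)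
  refine ⟨I.sup κ, fun L hLJ hLK => ?_⟩
  refine Pol_mono (Finset.le_sup ?_) (hκ (wt 𝓕 (sq L)) L hLJ rfl hLK)
  rw [Fintype.mem_piFinset]
  intro i
  rw [Finset.mem_range, Nat.lt_succ_iff]
  exact ((tp_card 𝓕).trans (sq_card _)).trans hLJ

end

end Pool.Agent.Helper31.NB
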