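import Pool.Agent.Helper31.NB.Mv

/-!
# Nilpotent groups of affine maps of compact abelian groups: convergence for characters
-/

set_option autoImplicit false
set_option linter.unusedSectionVars false

open Filter Topology MeasureTheory
open scoped ComplexConjugate ENNReal

namespace Pool.Agent.Helper31.NB

open Pool.Agent.TH784.AA
open Pool.Agent.TH635.AA (AltB subz subz_nz conv_gen Pol Sep sep_eval RiemInt)
open Pool.Agent.W742.CU (IsPoly)
open Pool.Agent.W761.Box (bxc Cv Good1)
open Pool.Agent.TH635.NP (SG SG_inv AltB_of_inj SJ top_gen good_ord isAff_closure)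
open Pool.Agent.Helper294.HallC (FGM Stb)
open Pool.Agent.W5h43.NA (PS gen IV subAct const_mem gsp gsp_stb mem_gsp gsp_fgm)

noncomputable section

/-- products of powers with separately polynomial exponents -/
theorem ofFn_SG {G : Type} [Group G] {ι : Type} (T : ι → G) {d k D : ℕ} (u : Fin d → ι)
    {p : Fin d → (Fin k → ℤ) → ℤ} (hp : ∀ i, Sep (D + 1) (p i)) :
    SG (PS T (D + 1)) (fun m => (List.ofFn fun i => T (u i) ^ p i m).prod) := by
  intro m l
  have e1 : (fun s => (List.ofFn fun i => T (u i) ^ p i (Function.update m l s)).prod) =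
      (List.ofFn fun i => fun s => T (u i) ^ p i (Function.update m l s)).prod := by
    funext s
    have h1 := map_list_prod (Pi.evalMonoidHom (fun _ : ℤ => G) s)
      (List.ofFn fun i => fun s => T (u i) ^ p i (Function.update m l s))
    rw [List.map_ofFn] at h1
    exact h1.symm
  rw [e1]
  apply Subgroup.list_prod_mem
  intro x hx
  obtain ⟨i, rfl⟩ := (List.mem_ofFn' _ _).mp hx
  exact Subgroup.subset_closure ⟨u i, _, hp i m l, rfl⟩

/-- sums -/
theorem CV_sum {G M : Type} [Group G] [AddCommGroup M] [DistribMulAction G M] {ι : Type}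
    {T : ι → G} {n k q : ℕ} {r : Fin k → ℤ} {J : Type} [Fintype J]
    {g : J → (Fin k → ℤ) → G} (hg : ∀ j, SG (PS T n) (g j)) (w : J → M) :
    CV T n q r (Fintype.card J) (fun m => ∑ j, g j (pt q r m) • w j) := by
  classical
  refine ⟨(Finset.univ : Finset J).toList.map fun j => (g j, w j), ?_, ?_, ?_⟩
  · rw [List.length_map, Finset.length_toList]
    exact le_of_eq (Finset.card_univ)
  · intro x hx
    obtain ⟨j, _, rfl⟩ := List.mem_map.mp hx
    exact hg j
  · intro m
    rw [List.map_map]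
    show ∑ j, g j (pt q r m) • w j = _
    exact (Finset.sum_map_toList Finset.univ fun j => g j (pt q r m) • w j).symm

variable {X : Type} [CommGroup X] [TopologicalSpace X] {Γ : Subgroup (Equiv.Perm X)}

/-- the dichotomy for the labels -/
theorem alt_lab [Group.IsNilpotent Γ] {ι : Type} [Finite ι] {k D : ℕ} {J : Type} [Fintype J]
    {T : ι → Γ} (hT : Subgroup.closure (Set.range T) = ⊤) (w : J → BB X ⧸ KK X) :
    ∃ q : ℕ, 1 ≤ q ∧ ∀ g : J → (Fin k → ℤ) → Γ, (∀ j, SG (PS T (D + 1)) (g j)) →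
      ∀ (r : Fin k → ℤ) (l : Fin k), AltB l (fun m => ∑ j, g j (pt q r m) • w j) := by
  classical
  let S : Finset (BB X ⧸ KK X) := Finset.univ.image w
  have hmem : ∀ j, w j ∈ gsp Γ (S : Set (BB X ⧸ KK X)) := fun j =>
    mem_gsp (Finset.mem_coe.2 (Finset.mem_image_of_mem _ (Finset.mem_univ j)))
  let _ : DistribMulAction Γ (gsp Γ (S : Set (BB X ⧸ KK X))) := subAct _ (gsp_stb _)
  obtain ⟨q, hq, h⟩ := dich_CV (T := T) (n := D + 1) (k := k)
    (M := gsp Γ (S : Set (BB X ⧸ KK X))) (by omega) hT (gsp_fgm S) (Fintype.card J)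
  refine ⟨q, hq, fun g hg r l => ?_⟩
  let V : (Fin k → ℤ) → gsp Γ (S : Set (BB X ⧸ KK X)) := fun m => ∑ j, g j (pt q r m) •
    (⟨w j, hmem j⟩ : gsp Γ (S : Set (BB X ⧸ KK X)))
  have h1 := h r V (CV_sum hg fun j => (⟨w j, hmem j⟩ : gsp Γ (S : Set (BB X ⧸ KK X)))) l
  have h2 := AltB_of_inj (X := X) (V := V) h1
  have e : (fun m => ((V m : gsp Γ (S : Set (BB X ⧸ KK X))) : BB X ⧸ KK X)) =
      fun m => ∑ j, g j (pt q r m) • w j := by
    funext m
    show (gsp Γ (S : Set (BB X ⧸ KK X))).subtype (V m) = _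
    rw [map_sum]
    rfl
  rw [e] at h2
  exact h2

variable [IsTopologicalGroup X] [CompactSpace X]
  [MeasurableSpace X] [BorelSpace X] {μ : Measure X} [IsProbabilityMeasure μ]
  [μ.IsMulLeftInvariant]

/-- **Convergence for characters.** -/
theorem conv_abs [Group.IsNilpotent Γ] (hΓ : ∀ g ∈ Γ, IsAff (g : X → X)) {k D : ℕ} {ι : Type}
    [Finite ι] {J : Type} [Fintype J] {T : ι → Γ} (hT : Subgroup.closure (Set.range T) = ⊤)
    {g : J → (Fin k → ℤ) → Γ} (hg : ∀ j, SG (PS T (D + 1)) (g j)) (w : J → BB X)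
    (hwac : ∀ j, IsAC (w j).toMul) :
    ∀ᵐ x ∂μ, ∃ L : ℂ, Tendsto (fun N => bxc k N fun m =>
      ∏ j, fb (w j) ((g j (nz m) : Equiv.Perm X) x)) atTop (𝓝 L) := by
  classical
  set F : (Fin k → ℤ) → BB X := fun m => ∑ j, (g j m)⁻¹ • w j with hF
  have hsm : ∀ (g : Γ) (f : BB X), g⁻¹ • f = pbk (g : Equiv.Perm X) f := by
    intro g f
    show pbk ((((g⁻¹)⁻¹ : Γ) : Equiv.Perm X) : X → X) f = _
    rw [inv_inv]
  have hFac : ∀ m, IsAC (F m).toMul := by
    intro m
    have key : ∀ s : Finset J, IsAC (∑ j ∈ s, (g j m)⁻¹ • w j).toMul := by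
      intro s
      induction s using Finset.induction_on with
      | empty => exact IsAC.one
      | insert i s hi ih =>
        rw [Finset.sum_insert hi, hsm]
        exact ((hwac i).comp (hΓ _ (g i m).2)).mul ih
    exact key Finset.univ
  have hSG : ∀ j, SG (PS T (D + 1)) (fun m => (g j m)⁻¹) := fun j => SG_inv (hg j)
  have hc : ∀ c : Γ, (fun _ => c) ∈ PS T (D + 1) := fun c => const_mem (by omega) hT c
  obtain ⟨q, hq, hdic⟩ := alt_lab (k := k) (D := D) hT fun j => QuotientAddGroup.mk' (KK X) (w j)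
  have key : ∀ᵐ x ∂μ, ∀ r : Fin k → ℕ, (∀ j, r j < q) → ∃ L : ℂ,
      Tendsto (fun N => bxc k N (sub r q fun n => fb (F (nz n)) x)) atTop (𝓝 L) := by
    rw [ae_all_iff]
    intro r
    by_cases hr : ∀ j, r j < q
    swap
    · exact Eventually.of_forall fun x h => absurd h hr
    have h1 := conv_gen (μ := μ) (subz r q F) (fun n => hFac _) (fun l => by
        have h3 := hdic (fun j m => (g j m)⁻¹) hSG (fun l => (r l : ℤ)) l
        have e : (fun m => ∑ j, (g j (pt q (fun l => (r l : ℤ)) m))⁻¹ •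
            QuotientAddGroup.mk' (KK X) (w j)) =
            fun n => QuotientAddGroup.mk' (KK X) (subz r q F n) := by
          funext n
          show _ = QuotientAddGroup.mk' (KK X)
            (∑ j, (g j (pt q (fun l => (r l : ℤ)) n))⁻¹ • w j)
          rw [map_sum]
          rfl
        rw [e] at h3
        exact h3) (fun E hE => by
        have hFcl : CV T (D + 1) q (fun l => (r l : ℤ)) (Fintype.card J) (subz r q F) :=
          CV_sum hSG w
        exact fix_CV (K := KK X) (fun g x hx => pbk_KK _ hx)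
          (CV_sub hFcl (CV_mix hc hFcl E)) hE)
    filter_upwards [h1] with x hx _
    obtain ⟨L, hL⟩ := hx
    refine ⟨L, hL.congr fun N => ?_⟩
    congr 1
  filter_upwards [key] with x hx
  obtain ⟨L, hL⟩ := conv_of_residues hq hx
  refine ⟨L, hL.congr fun N => ?_⟩
  congr 1
  funext m
  have key2 : ∀ s : Finset J, fb (∑ j ∈ s, (g j (nz m))⁻¹ • w j) x =
      ∏ j ∈ s, fb (w j) ((g j (nz m) : Equiv.Perm X) x) := by
    intro s
    induction s using Finset.induction_on with
    | empty =>
      rw [Finset.sum_empty, Finset.prod_empty]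
      exact Circle.coe_one
    | insert i s hi ih =>
      rw [Finset.prod_insert hi, ← ih, Finset.sum_insert hi, fb_add, hsm]
      rfl
  exact key2 Finset.univ

end

end Pool.Agent.Helper31.NB
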