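import Pool.Agent.Helper31.NB.Top

/-!
# Virtually nilpotent groups of affine maps, integer valued polynomials
-/

set_option autoImplicit false
set_option linter.unusedSectionVars false

open Filter Topology MeasureTheory
open scoped ComplexConjugate ENNReal

namespace Pool.Agent.Helper31.NB

open Pool.Agent.TH784.AA
open Pool.Agent.TH635.AA (Pol Sep sep_eval RiemInt dd_hom Pol_const Pol_sub eval_modEq)
open Pool.Agent.W761.Box (bxc Cv Good1)
open Pool.Agent.TH635.NP (SG top_gen good_ord isAff_closure)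
open Pool.Agent.W5h43.NA (PS chB)

noncomputable section

/-! ### exponents -/

section exps

variable {k : ℕ}

/-- a polynomial with rational coefficients which maps `ℤ ^ k` to `ℤ` -/
def IsPM (p : (Fin k → ℤ) → ℤ) : Prop :=
  ∃ P : MvPolynomial (Fin k) ℚ, ∀ m, ((p m : ℤ) : ℚ) = MvPolynomial.eval (fun l => (m l : ℚ)) P

theorem clear_den (P : MvPolynomial (Fin k) ℚ) : ∃ N : ℕ, 1 ≤ N ∧ ∃ R : MvPolynomial (Fin k) ℤ,
    MvPolynomial.C (N : ℚ) * P = MvPolynomial.map (Int.castRingHom ℚ) R := by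
  induction P using MvPolynomial.induction_on with
  | C a =>
    refine ⟨a.den, a.den_pos, MvPolynomial.C a.num, ?_⟩
    rw [MvPolynomial.map_C, ← MvPolynomial.C_mul]
    congr 1
    rw [mul_comm]
    exact Rat.mul_den_eq_num a
  | add p q hp hq =>
    obtain ⟨N, hN, R, hR⟩ := hp
    obtain ⟨N', hN', R', hR'⟩ := hq
    refine ⟨N * N', Nat.mul_pos hN hN', MvPolynomial.C (N' : ℤ) * R + MvPolynomial.C (N : ℤ) * R',
      ?_⟩
    rw [map_add, map_mul, map_mul, ← hR, ← hR', MvPolynomial.map_C, MvPolynomial.map_C]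
    have e1 : (Int.castRingHom ℚ) (N' : ℤ) = (N' : ℚ) := by simp
    have e2 : (Int.castRingHom ℚ) (N : ℤ) = (N : ℚ) := by simp
    rw [e1, e2, Nat.cast_mul, MvPolynomial.C_mul]
    ring
  | mul_X p i hp =>
    obtain ⟨N, hN, R, hR⟩ := hp
    refine ⟨N, hN, R * MvPolynomial.X i, ?_⟩
    rw [map_mul, ← hR, MvPolynomial.map_X, mul_assoc]

theorem IsPM.clear {p : (Fin k → ℤ) → ℤ} (hp : IsPM p) : ∃ N : ℕ, 1 ≤ N ∧
    ∃ R : MvPolynomial (Fin k) ℤ, ∀ m, (N : ℤ) * p m = MvPolynomial.eval m R := by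
  obtain ⟨P, hP⟩ := hp
  obtain ⟨N, hN, R, hR⟩ := clear_den P
  refine ⟨N, hN, R, fun m => ?_⟩
  have h1 := congrArg (MvPolynomial.eval fun l => (m l : ℚ)) hR
  rw [map_mul, MvPolynomial.eval_C, ← hP, MvPolynomial.eval_map] at h1
  have h2 : MvPolynomial.eval₂ (Int.castRingHom ℚ) (fun l => (m l : ℚ)) R =
      ((MvPolynomial.eval m R : ℤ) : ℚ) := by
    have h3 := MvPolynomial.eval₂_comp_left (Int.castRingHom ℚ) (RingHom.id ℤ) m R
    rw [RingHom.comp_id] at h3
    exact h3.symm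
  rw [h2] at h1
  exact_mod_cast h1

theorem Pol_of_mul {n : ℕ} {c : ℤ} (hc : c ≠ 0) {f : ℤ → ℤ} (h : Pol n (fun t => c * f t)) :
    Pol n f := by
  intro t
  have h1 := dd_hom n (AddMonoidHom.mulLeft c) f t
  have h2 := h t
  rw [show (fun t => c * f t) = fun t => (AddMonoidHom.mulLeft c) (f t) from rfl, h1] at h2
  exact (mul_eq_zero.1 h2).resolve_left hc

/-- the exponents on a residue class -/
theorem quot_pm {p : (Fin k → ℤ) → ℤ} {N : ℕ} (hN : 1 ≤ N) {R : MvPolynomial (Fin k) ℤ}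
    (hR : ∀ m, (N : ℤ) * p m = MvPolynomial.eval m R) {D : ℕ} (hD : R.totalDegree ≤ D)
    {q₀ q : ℕ} (hq₀ : 1 ≤ q₀) (hq : N * q₀ ∣ q) (r : Fin k → ℤ) :
    ∃ p' : (Fin k → ℤ) → ℤ, Sep (D + 1) p' ∧ ∀ m, p (pt q r m) = p r + q₀ * p' m := by
  have hdvd : ∀ m, (q₀ : ℤ) ∣ p (pt q r m) - p r := by
    intro m
    have h1 : (q : ℤ) ∣ MvPolynomial.eval (pt q r m) R - MvPolynomial.eval r R := by
      apply Int.ModEq.dvd
      apply eval_modEq
      intro j
      rw [Int.modEq_iff_dvd]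
      exact ⟨m j, by unfold pt; ring⟩
    rw [← hR, ← hR, ← mul_sub] at h1
    have h2 : ((N : ℤ) * q₀) ∣ (N : ℤ) * (p (pt q r m) - p r) :=
      dvd_trans (by exact_mod_cast hq) h1
    exact (mul_dvd_mul_iff_left (by positivity)).1 h2
  choose p' hp' using hdvd
  refine ⟨p', fun m l => ?_, fun m => by rw [← hp' m]; ring⟩
  apply Pol_of_mul (c := (N : ℤ) * q₀) (by positivity)
  have e : (fun t => (N : ℤ) * q₀ * p' (Function.update m l t)) = fun t =>
      MvPolynomial.eval (fun j => r j + q * Function.update m l t j) R - MvPolynomial.eval r R := by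
    funext t
    rw [← hR r]
    have h1 := hR (pt q r (Function.update m l t))
    rw [show MvPolynomial.eval (fun j => r j + q * Function.update m l t j) R =
      MvPolynomial.eval (pt q r (Function.update m l t)) R from rfl, ← h1, mul_assoc, ← hp']
    ring
  rw [e]
  exact Pol_sub (sep_eval R hD q r m l) (Pol_const (by omega) _)

/-- shifted polynomials are polynomials -/
theorem IsPM.shift {p : (Fin k → ℤ) → ℤ} (hp : IsPM p) : IsPM (fun m => p (m + 1)) := by
  obtain ⟨P, hP⟩ := hp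
  refine ⟨MvPolynomial.aeval (fun l => (MvPolynomial.X l + 1 : MvPolynomial (Fin k) ℚ)) P,
    fun m => ?_⟩
  rw [hP, ← MvPolynomial.coe_aeval_eq_eval, ← MvPolynomial.coe_aeval_eq_eval]
  show _ = MvPolynomial.aeval (fun l => (m l : ℚ)) (MvPolynomial.aeval _ P)
  rw [← AlgHom.comp_apply, MvPolynomial.comp_aeval]
  simp

end exps

/-! ### groups -/

section grp

/-- splitting the product on a residue class -/
theorem push {G : Type*} [Group G] (Q : ℕ) : ∀ (d : ℕ) (t : Fin d → G) (a : Fin d → ℤ),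
    ∃ (c : G) (b : Fin d → G), ∀ e : Fin d → ℤ,
      (List.ofFn fun i => t i ^ (a i + Q * e i)).prod =
        c * (List.ofFn fun i => (b i * t i ^ Q * (b i)⁻¹) ^ e i).prod := by
  intro d
  induction d with
  | zero =>
    intro t a
    exact ⟨1, fun _ => 1, fun e => by rw [List.ofFn_zero, List.ofFn_zero, one_mul]⟩
  | succ d ih =>
    intro t a
    obtain ⟨c, b, h⟩ := ih (fun i => t i.succ) (fun i => a i.succ)
    refine ⟨t 0 ^ a 0 * c, Fin.cons c⁻¹ b, fun e => ?_⟩
    rw [List.ofFn_succ, List.prod_cons, List.ofFn_succ, List.prod_cons]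
    have h1 := h fun i => e i.succ
    rw [h1, Fin.cons_zero, conj_zpow, zpow_add, zpow_mul, zpow_natCast]
    simp only [Fin.cons_succ, inv_inv]
    group

theorem nilp_of_le {G : Type*} [Group G] {H K : Subgroup G} (h : H ≤ K)
    (hK : Group.IsNilpotent K) : Group.IsNilpotent H :=
  Group.nilpotent_of_mulEquiv (Subgroup.subgroupOfEquivOfLe h)

theorem clo_top {G : Type*} [Group G] {ι : Type*} (u : ι → G) :
    Subgroup.closure (Set.range fun i => (⟨u i, Subgroup.subset_closure ⟨i, rfl⟩⟩ :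
      Subgroup.closure (Set.range u))) = ⊤ := by
  have e : (Set.range fun i => (⟨u i, Subgroup.subset_closure ⟨i, rfl⟩⟩ :
      Subgroup.closure (Set.range u))) =
      ((↑) : Subgroup.closure (Set.range u) → G) ⁻¹' Set.range u := by
    ext g
    constructor
    · rintro ⟨i, rfl⟩
      exact ⟨i, rfl⟩
    · rintro ⟨i, hi⟩
      exact ⟨i, Subtype.ext hi⟩
  rw [e]
  exact Subgroup.closure_closure_coe_preimage

theorem coe_ofFn_prod {G : Type*} [Group G] {H : Subgroup G} {d : ℕ} (t : Fin d → H)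
    (e : Fin d → ℤ) : (((List.ofFn fun i => t i ^ e i).prod : H) : G) =
      (List.ofFn fun i => (t i : G) ^ e i).prod := by
  have h1 := map_list_prod H.subtype (List.ofFn fun i => t i ^ e i)
  rw [List.map_ofFn] at h1
  exact h1

end grp

section conv

variable {X : Type} [CommGroup X] [TopologicalSpace X] [IsTopologicalGroup X] [CompactSpace X]
  [T2Space X] [MeasurableSpace X] [BorelSpace X] {μ : Measure X} [IsProbabilityMeasure μ]
  [μ.IsMulLeftInvariant] {d k : ℕ} {J : Type} [Fintype J]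

theorem nz_res (r : Fin k → ℕ) (q : ℕ) (m : Fin k → ℕ) :
    nz (fun j => r j + q * m j) = pt q (fun l => (r l : ℤ)) (nz m) := by
  funext j
  unfold nz pt
  push_cast
  rfl

/-- **Convergence for characters, virtually nilpotent groups.** -/
theorem conv_vn {T : Fin d → Equiv.Perm X} (hT : ∀ i, IsAff (T i : X → X))
    (hnil : ∃ Λ : Subgroup (Subgroup.closure (Set.range T)), Λ.FiniteIndex ∧ Group.IsNilpotent Λ)
    {P : Fin d → J → (Fin k → ℤ) → ℤ} (hP : ∀ i j, IsPM (P i j)) (χ : J → X →ₜ* Circle) :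
    Cv μ (fun j (m : Fin k → ℕ) => ((List.ofFn fun i => T i ^ P i j (nz m)).prod : Equiv.Perm X))
      (fun j x => (χ j x : ℂ)) := by
  classical
  have hΓ : ∀ g ∈ Subgroup.closure (Set.range T), IsAff (g : X → X) := isAff_closure hT
  have htt : ∀ i, T i ∈ Subgroup.closure (Set.range T) := fun i =>
    Subgroup.subset_closure ⟨i, rfl⟩
  generalize Subgroup.closure (Set.range T) = Γ at hnil hΓ htt
  obtain ⟨Λ, hΛf, hΛn⟩ := hnil
  let t : Fin d → Γ := fun i => ⟨T i, htt i⟩
  have hΛ'n : Group.IsNilpotent Λ.normalCore := nilp_of_le (Subgroup.normalCore_le Λ) hΛn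
  have hΛ'f : Λ.normalCore.FiniteIndex := inferInstance
  have hΛ'N : Λ.normalCore.Normal := Subgroup.normalCore_normal Λ
  generalize Λ.normalCore = Λ' at hΛ'n hΛ'f hΛ'N
  set Q₀ : ℕ := Λ'.index with hQ₀
  have hQ₀1 : 1 ≤ Q₀ := Nat.one_le_iff_ne_zero.2 hΛ'f.index_ne_zero
  choose N hN R hR using fun i j => (hP i j).clear
  set D : ℕ := ∑ i, ∑ j, (R i j).totalDegree with hD
  have hDij : ∀ i j, (R i j).totalDegree ≤ D := by
    intro i j
    refine le_trans ?_ (Finset.single_le_sum (f := fun i => ∑ j, (R i j).totalDegree)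
      (fun _ _ => Nat.zero_le _) (Finset.mem_univ i))
    exact Finset.single_le_sum (f := fun j => (R i j).totalDegree)
      (fun _ _ => Nat.zero_le _) (Finset.mem_univ j)
  set q : ℕ := Q₀ * ∏ i, ∏ j, N i j with hq
  have hq1 : 1 ≤ q := Nat.mul_pos hQ₀1
    (Finset.prod_pos fun i _ => Finset.prod_pos fun j _ => hN i j)
  have hdvd : ∀ i j, N i j * Q₀ ∣ q := by
    intro i j
    rw [hq, mul_comm (N i j)]
    apply mul_dvd_mul_left
    exact (Finset.dvd_prod_of_mem (fun j => N i j) (Finset.mem_univ j)).trans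
      (Finset.dvd_prod_of_mem (fun i => ∏ j, N i j) (Finset.mem_univ i))
  have key : ∀ᵐ x ∂μ, ∀ r : Fin k → ℕ, ∃ L : ℂ,
      Tendsto (fun N => bxc k N (sub r q fun m => ∏ j, (χ j
        (((List.ofFn fun i => T i ^ P i j (nz m)).prod : Equiv.Perm X) x) : ℂ))) atTop (𝓝 L) := by
    rw [ae_all_iff]
    intro r
    choose p' hp' hpp' using fun i j => quot_pm (hN i j) (hR i j) (hDij i j) hQ₀1 (hdvd i j)
      (fun l => (r l : ℤ))
    choose c b hcb using fun j => push Q₀ d t fun i => P i j (fun l => (r l : ℤ))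
    let u : Fin d × J → Γ := fun ij => b ij.2 ij.1 * t ij.1 ^ Q₀ * (b ij.2 ij.1)⁻¹
    have hu : ∀ ij, u ij ∈ Λ' := fun ij =>
      hΛ'N.conj_mem _ (Subgroup.pow_index_mem Λ' (t ij.1)) _
    let Λ₂ : Subgroup (Equiv.Perm X) :=
      Subgroup.closure (Set.range fun ij : Fin d × J => ((u ij : Γ) : Equiv.Perm X))
    have hle : Λ₂ ≤ Λ'.map Γ.subtype := by
      rw [Subgroup.closure_le]
      rintro _ ⟨ij, rfl⟩
      exact ⟨u ij, hu ij, rfl⟩
    have hmapn : Group.IsNilpotent (Λ'.map Γ.subtype) :=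
      Group.nilpotent_of_mulEquiv (Subgroup.equivMapOfInjective Λ' Γ.subtype
        (Subgroup.subtype_injective Γ))
    have hΛ₂n : Group.IsNilpotent Λ₂ := nilp_of_le hle hmapn
    have hΛ₂Γ : ∀ g ∈ Λ₂, IsAff (g : X → X) := by
      intro g hg
      obtain ⟨g', _, rfl⟩ := hle hg
      exact hΓ _ g'.2
    let T₂ : Fin d × J → Λ₂ := fun ij => ⟨u ij, Subgroup.subset_closure ⟨ij, rfl⟩⟩
    have hT₂ : Subgroup.closure (Set.range T₂) = ⊤ :=
      clo_top fun ij : Fin d × J => ((u ij : Γ) : Equiv.Perm X)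
    let g : J → (Fin k → ℤ) → Λ₂ := fun j m => (List.ofFn fun i => T₂ (i, j) ^ p' i j m).prod
    have hg : ∀ j, SG (PS T₂ (D + 1)) (g j) := fun j =>
      ofFn_SG T₂ (fun i => (i, j)) fun i => hp' i j
    have hac : ∀ j, IsAC (chB (χ j)).toMul := fun j => ⟨χ j, 1, fun x => (one_mul _).symm⟩
    have h1 := conv_abs (μ := μ) hΛ₂Γ hT₂ hg (fun j => pbk ((c j : Γ) : Equiv.Perm X) (chB (χ j)))
      fun j => IsAC.comp (hac j) (hΓ _ (c j).2)
    filter_upwards [h1] with x hx
    obtain ⟨L, hL⟩ := hx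
    refine ⟨L, hL.congr fun M => ?_⟩
    congr 1
    funext m
    show _ = ∏ j, (χ j (((List.ofFn fun i => T i ^ P i j (nz fun j => r j + q * m j)).prod :
      Equiv.Perm X) x) : ℂ)
    refine Finset.prod_congr rfl fun j _ => ?_
    have e1 : ((c j : Γ) : Equiv.Perm X) * (g j (nz m) : Equiv.Perm X) =
        (List.ofFn fun i => T i ^ P i j (nz fun j => r j + q * m j)).prod := by
      have h2 := hcb j fun i => p' i j (nz m)
      simp only [← hpp', ← nz_res] at h2
      have h3 := congrArg (fun g : Γ => (g : Equiv.Perm X)) h2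
      simp only [Subgroup.coe_mul] at h3
      rw [coe_ofFn_prod] at h3
      rw [coe_ofFn_prod] at h3
      show _ * ((List.ofFn fun i => T₂ (i, j) ^ p' i j (nz m)).prod : Λ₂).1 = _
      rw [coe_ofFn_prod]
      exact h3.symm
    rw [← e1]
    rfl
  filter_upwards [key] with x hx
  exact conv_of_residues hq1 fun r _ => hx r

end conv

end

end Pool.Agent.Helper31.NB
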